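import Pool.Agent.H586.AF.B

/-!
# Project AF: the jet of the covariant Laplacian at zero field (task AF-LC)
-/

set_option autoImplicit false

open MeasureTheory Matrix Finset Filter Topology
open Pool.Agent.H586.AF

namespace Pool.Agent.H588.AF

theorem lc_mul {l m n : Type} [Fintype m] (A : Matrix l m ℝ) (B : Matrix m n ℝ) :
    cx (A * B) = cx A * cx B := by
  ext i j
  simp [Matrix.mul_apply]

theorem lc_inv {n : Type} [Fintype n] [DecidableEq n] (A : Matrix n n ℝ) :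
    (cx A)⁻¹ = cx A⁻¹ := by
  have h1 : (cx A).det = ((A.det : ℝ) : ℂ) := (RingHom.map_det Complex.ofRealHom A).symm
  have h2 : (cx A).adjugate = cx A.adjugate := (RingHom.map_adjugate Complex.ofRealHom A).symm
  rw [Matrix.inv_def, Matrix.inv_def, Ring.inverse_eq_inv', Ring.inverse_eq_inv', h1, h2]
  ext i j
  simp

theorem lc_trace {n : Type} [Fintype n] (A : Matrix n n ℝ) :
    (cx A).trace = ((A.trace : ℝ) : ℂ) := by
  simp [Matrix.trace, Matrix.diag]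

theorem lc_phs {n : ℕ} (θ s x0 : ℝ) (i j : Fin n) : phs θ s x0 i j =
    Complex.exp (Complex.I * ((θ * s * (((i : ℕ) : ℝ) + x0) : ℝ) : ℂ)) *
      (1 : Matrix (Fin n) (Fin n) ℂ) i j := by
  unfold phs
  by_cases h : i = j
  · subst h
    rw [Matrix.diagonal_apply_eq, Matrix.one_apply_eq, mul_one]
  · rw [Matrix.diagonal_apply_ne _ h, Matrix.one_apply_ne h, mul_zero]

theorem lc_diag {n : ℕ} (d : Fin n → ℝ) (i j : Fin n) : Matrix.diagonal d i j =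
    d i * (1 : Matrix (Fin n) (Fin n) ℝ) i j := by
  by_cases h : i = j
  · subst h
    rw [Matrix.diagonal_apply_eq, Matrix.one_apply_eq, mul_one]
  · rw [Matrix.diagonal_apply_ne _ h, Matrix.one_apply_ne h, mul_zero]

theorem lc_one {n : ℕ} (i j : Fin n) : (((1 : Matrix (Fin n) (Fin n) ℝ) i j : ℝ) : ℂ) =
    (1 : Matrix (Fin n) (Fin n) ℂ) i j := by
  by_cases h : i = j
  · subst h
    rw [Matrix.one_apply_eq, Matrix.one_apply_eq, Complex.ofReal_one]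
  · rw [Matrix.one_apply_ne h, Matrix.one_apply_ne h, Complex.ofReal_zero]

theorem lc_exp (s r θ : ℝ) : HasDerivAt (fun θ : ℝ => Complex.exp (Complex.I * ((θ * s * r : ℝ) : ℂ)))
    (Complex.I * ((s * r : ℝ) : ℂ) * Complex.exp (Complex.I * ((θ * s * r : ℝ) : ℂ))) θ := by
  have h1 : HasDerivAt (fun θ : ℝ => θ * s * r) (1 * s * r) θ :=
    ((hasDerivAt_id θ).mul_const s).mul_const r
  have h2 := (h1.ofReal_comp.const_mul Complex.I).cexp
  rw [one_mul] at h2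
  rw [mul_comm (Complex.I * ((s * r : ℝ) : ℂ))]
  exact h2

/-- first derivative -/
theorem lc_d1 (c a b : ℂ) (r θ : ℝ) : HasDerivAt (fun θ : ℝ =>
      c - Complex.exp (Complex.I * ((θ * 1 * r : ℝ) : ℂ)) * a -
        Complex.exp (Complex.I * ((θ * (-1) * r : ℝ) : ℂ)) * b)
    (Complex.I * r * (Complex.exp (Complex.I * ((θ * (-1) * r : ℝ) : ℂ)) * b -
      Complex.exp (Complex.I * ((θ * 1 * r : ℝ) : ℂ)) * a)) θ := by
  have h1 := ((lc_exp 1 r θ).mul_const a).const_sub c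
  have h2 := h1.sub ((lc_exp (-1) r θ).mul_const b)
  refine h2.congr_deriv ?_
  push_cast
  ring

/-- second derivative -/
theorem lc_d2 (a b : ℂ) (r θ : ℝ) : HasDerivAt (fun θ : ℝ =>
      Complex.I * r * (Complex.exp (Complex.I * ((θ * (-1) * r : ℝ) : ℂ)) * b -
      Complex.exp (Complex.I * ((θ * 1 * r : ℝ) : ℂ)) * a))
    ((r : ℂ) ^ 2 * (Complex.exp (Complex.I * ((θ * (-1) * r : ℝ) : ℂ)) * b +
      Complex.exp (Complex.I * ((θ * 1 * r : ℝ) : ℂ)) * a)) θ := by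
  have h1 := (((lc_exp (-1) r θ).mul_const b).sub ((lc_exp 1 r θ).mul_const a)).const_mul
    (Complex.I * (r : ℂ))
  refine h1.congr_deriv ?_
  push_cast
  linear_combination (-(r : ℂ) ^ 2 * (Complex.exp (Complex.I * ((θ : ℂ) * (-1) * r)) * b +
      Complex.exp (Complex.I * ((θ : ℂ) * 1 * r)) * a)) * Complex.I_sq

theorem lc_jet {n1 n2 n3 n4 : ℕ} (x0 : ℝ) (A1 : Matrix (Fin n1) (Fin n1) ℝ)
    (A2 : Matrix (Fin n2) (Fin n2) ℝ) (A3 : Matrix (Fin n3) (Fin n3) ℝ)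
    (A4 : Matrix (Fin n4) (Fin n4) ℝ) (x y : Fin n1 × Fin n2 × Fin n3 × Fin n4) :
    deriv (fun θ => covL x0 A1 A2 A3 A4 θ x y) 0 =
      Complex.I * ((k4 (Matrix.diagonal fun i : Fin n1 => ((i : ℕ) : ℝ) + x0) (km n2)
        (1 : Matrix (Fin n3) (Fin n3) ℝ) (1 : Matrix (Fin n4) (Fin n4) ℝ) x y : ℝ) : ℂ) ∧
    deriv (deriv fun θ => covL x0 A1 A2 A3 A4 θ x y) 0 =
      ((k4 (Matrix.diagonal fun i : Fin n1 => (((i : ℕ) : ℝ) + x0) ^ 2) (tm n2 + (tm n2)ᵀ)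
        (1 : Matrix (Fin n3) (Fin n3) ℝ) (1 : Matrix (Fin n4) (Fin n4) ℝ) x y : ℝ) : ℂ) := by
  set r : ℝ := ((x.1 : ℕ) : ℝ) + x0 with hr
  set a : ℂ := k4 (1 : Matrix (Fin n1) (Fin n1) ℂ) (cx (tm n2)) (1 : Matrix (Fin n3) (Fin n3) ℂ)
    (1 : Matrix (Fin n4) (Fin n4) ℂ) x y with ha
  set b : ℂ := k4 (1 : Matrix (Fin n1) (Fin n1) ℂ) (cx (tm n2)ᵀ) (1 : Matrix (Fin n3) (Fin n3) ℂ)
    (1 : Matrix (Fin n4) (Fin n4) ℂ) x y with hb
  obtain ⟨c, hc⟩ : ∃ c : ℂ, (fun θ => covL x0 A1 A2 A3 A4 θ x y) = fun θ : ℝ =>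
      c - Complex.exp (Complex.I * ((θ * 1 * r : ℝ) : ℂ)) * a -
        Complex.exp (Complex.I * ((θ * (-1) * r : ℝ) : ℂ)) * b := by
    refine ⟨k4 (cx A1) (1 : Matrix (Fin n2) (Fin n2) ℂ) (1 : Matrix (Fin n3) (Fin n3) ℂ)
      (1 : Matrix (Fin n4) (Fin n4) ℂ) x y +
      k4 (1 : Matrix (Fin n1) (Fin n1) ℂ) (Matrix.diagonal fun i => ((A2 i i : ℝ) : ℂ))
      (1 : Matrix (Fin n3) (Fin n3) ℂ) (1 : Matrix (Fin n4) (Fin n4) ℂ) x y +
      k4 (1 : Matrix (Fin n1) (Fin n1) ℂ) (1 : Matrix (Fin n2) (Fin n2) ℂ) (cx A3)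
      (1 : Matrix (Fin n4) (Fin n4) ℂ) x y +
      k4 (1 : Matrix (Fin n1) (Fin n1) ℂ) (1 : Matrix (Fin n2) (Fin n2) ℂ)
      (1 : Matrix (Fin n3) (Fin n3) ℂ) (cx A4) x y, ?_⟩
    funext θ
    rw [ha, hb]
    unfold covL
    simp only [Matrix.add_apply, Matrix.sub_apply, k4, lc_phs, ← hr]
    ring
  rw [hc]
  have h1 : (deriv fun θ : ℝ =>
      c - Complex.exp (Complex.I * ((θ * 1 * r : ℝ) : ℂ)) * a -
        Complex.exp (Complex.I * ((θ * (-1) * r : ℝ) : ℂ)) * b) = fun θ : ℝ =>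
      Complex.I * r * (Complex.exp (Complex.I * ((θ * (-1) * r : ℝ) : ℂ)) * b -
      Complex.exp (Complex.I * ((θ * 1 * r : ℝ) : ℂ)) * a) :=
    funext fun θ => (lc_d1 c a b r θ).deriv
  have e0 : ∀ s : ℝ, Complex.exp (Complex.I * ((0 * s * r : ℝ) : ℂ)) = 1 := by
    intro s
    rw [zero_mul, zero_mul, Complex.ofReal_zero, mul_zero, Complex.exp_zero]
  constructor
  · rw [(lc_d1 c a b r 0).deriv, e0, e0, ha, hb]
    simp only [k4, lc_diag, km, Matrix.sub_apply, Matrix.map_apply, Complex.ofReal_mul,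
      Complex.ofReal_sub, lc_one, ← hr]
    ring
  · rw [h1, (lc_d2 a b r 0).deriv, e0, e0, ha, hb]
    simp only [k4, lc_diag, Matrix.add_apply, Matrix.map_apply, Complex.ofReal_mul,
      Complex.ofReal_add, Complex.ofReal_pow, lc_one, ← hr]
    ring

theorem lc_zero {n1 n2 n3 n4 : ℕ} (x0 : ℝ) (A1 : Matrix (Fin n1) (Fin n1) ℝ)
    (A2 : Matrix (Fin n2) (Fin n2) ℝ) (A3 : Matrix (Fin n3) (Fin n3) ℝ)
    (A4 : Matrix (Fin n4) (Fin n4) ℝ)
    (h : A2 = (Matrix.diagonal fun i => A2 i i) - tm n2 - (tm n2)ᵀ) :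
    covL x0 A1 A2 A3 A4 0 = cx (ks A1 A2 A3 A4) := by
  ext x y
  have e0 : ∀ s r : ℝ, Complex.exp (Complex.I * ((0 * s * r : ℝ) : ℂ)) = 1 := by
    intro s r
    rw [zero_mul, zero_mul, Complex.ofReal_zero, mul_zero, Complex.exp_zero]
  have h2 : ((A2 x.2.1 y.2.1 : ℝ) : ℂ) = (Matrix.diagonal fun i => ((A2 i i : ℝ) : ℂ)) x.2.1 y.2.1 -
      ((tm n2 x.2.1 y.2.1 : ℝ) : ℂ) - (((tm n2)ᵀ x.2.1 y.2.1 : ℝ) : ℂ) := by
    have h3 : A2 x.2.1 y.2.1 = (Matrix.diagonal fun i => A2 i i) x.2.1 y.2.1 - tm n2 x.2.1 y.2.1 -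
        (tm n2)ᵀ x.2.1 y.2.1 := congrFun (congrFun h x.2.1) y.2.1
    rw [h3]
    push_cast
    congr 2
    by_cases hij : x.2.1 = y.2.1
    · rw [hij, Matrix.diagonal_apply_eq, Matrix.diagonal_apply_eq]
    · rw [Matrix.diagonal_apply_ne _ hij, Matrix.diagonal_apply_ne _ hij, Complex.ofReal_zero]
  unfold covL ks
  simp only [Matrix.add_apply, Matrix.sub_apply, k4, lc_phs, e0, Matrix.map_apply]
  simp only [Complex.ofReal_mul, Complex.ofReal_add, lc_one]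
  rw [h2]
  ring

/-- the magnetic part -/
theorem tlc (hT : S_T) : S_LC := by
  intro n1 n2 n3 n4 A1 A2 A3 A4 h1 h2 h3 h4 hA x0
  have hR := (hT A1 A2 A3 A4 h1 h2 h3 h4).2.1 hA x0
  unfold ld
  have d1 : (Matrix.of fun i j => deriv (fun θ => covL x0 A1 A2 A3 A4 θ i j) 0) =
      Complex.I • cx (k4 (Matrix.diagonal fun i : Fin n1 => ((i : ℕ) : ℝ) + x0) (km n2)
        (1 : Matrix (Fin n3) (Fin n3) ℝ) (1 : Matrix (Fin n4) (Fin n4) ℝ)) := by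
    ext x y
    rw [Matrix.of_apply, (lc_jet x0 A1 A2 A3 A4 x y).1]
    rfl
  have d2 : (Matrix.of fun i j => deriv (deriv fun θ => covL x0 A1 A2 A3 A4 θ i j) 0) =
      cx (k4 (Matrix.diagonal fun i : Fin n1 => (((i : ℕ) : ℝ) + x0) ^ 2) (tm n2 + (tm n2)ᵀ)
        (1 : Matrix (Fin n3) (Fin n3) ℝ) (1 : Matrix (Fin n4) (Fin n4) ℝ)) := by
    ext x y
    rw [Matrix.of_apply, (lc_jet x0 A1 A2 A3 A4 x y).2]
    rfl
  rw [d1, d2, lc_zero x0 A1 A2 A3 A4 hA, lc_inv, Matrix.mul_smul, Matrix.mul_smul, Matrix.smul_mul,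
    Matrix.smul_mul, smul_smul, Complex.I_mul_I, ← lc_mul, ← lc_mul, ← lc_mul, ← lc_mul,
    Matrix.trace_smul, lc_trace, lc_trace, ← hR]
  push_cast
  rw [smul_eq_mul]
  ring

end Pool.Agent.H588.AF
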